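import Pool.Agent.N236.UB.Stm

/-!
# Project UB (helper236), part DICK (helper578): Dickson polynomials over finite fields
-/

set_option autoImplicit false

open Polynomial

namespace Pool.Agent.N578.UB

section ring

variable {R : Type*} [CommRing R]

theorem eval_dick (u w : R) : ∀ n : ℕ, (dickson 1 (u * w) n).eval (u + w) = u ^ n + w ^ n
  | 0 => by
    simp only [dickson_zero, pow_zero]
    simp
    norm_num
  | 1 => by simp [dickson_one]
  | n + 2 => by
    rw [dickson_add_two]
    simp only [eval_sub, eval_mul, eval_X, eval_C, eval_dick u w n, eval_dick u w (n + 1)]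
    ring

theorem eval_der (u w : R) : ∀ n : ℕ,
    (u - w) * (derivative (dickson 1 (u * w) n)).eval (u + w) = n * (u ^ n - w ^ n)
  | 0 => by
    simp [dickson_zero]
  | 1 => by simp [dickson_one]
  | n + 2 => by
    rw [dickson_add_two]
    simp only [derivative_sub, derivative_mul, derivative_X, derivative_C, eval_sub, eval_add, eval_mul,
      eval_X, eval_C, eval_one, zero_mul, zero_add, one_mul, eval_zero]
    have h1 := eval_der u w n
    have h2 := eval_der u w (n + 1)
    have h3 := eval_dick u w (n + 1)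
    rw [h3]
    push_cast at h2 ⊢
    linear_combination (u + w) * h2 - u * w * h1

theorem eval_der_two (u : R) : ∀ n : ℕ,
    (derivative (dickson 1 (u * u) n)).eval (u + u) = (n : R) ^ 2 * u ^ (n - 1)
  | 0 => by
    simp [dickson_zero]
  | 1 => by simp [dickson_one]
  | n + 2 => by
    rw [dickson_add_two]
    simp only [derivative_sub, derivative_mul, derivative_X, derivative_C, eval_sub, eval_add, eval_mul,
      eval_X, eval_C, eval_one, zero_mul, zero_add, one_mul, eval_zero]
    have h1 := eval_der_two u n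
    have h2 := eval_der_two u (n + 1)
    have h3 := eval_dick u u (n + 1)
    rw [h3, h2, h1]
    rcases n with _ | n
    · simp
      ring
    · have e1 : n + 1 + 1 - 1 = n + 1 := by omega
      have e2 : n + 1 - 1 = n := by omega
      have e3 : n + 1 + 2 - 1 = n + 2 := by omega
      rw [e1, e2, e3]
      push_cast
      ring

end ring

/-- the two roots -/
theorem roots {k : Type} [Field k] [Fintype k] (x β : k) : ∃ u w : AlgebraicClosure k,
    u + w = algebraMap k _ x ∧ u * w = algebraMap k _ β ∧ u ^ (Fintype.card k ^ 2) = u ∧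
    w ^ (Fintype.card k ^ 2) = w := by
  obtain ⟨u, hu⟩ : ∃ u : AlgebraicClosure k, u ^ 2 - algebraMap k _ x * u + algebraMap k _ β = 0 := by
    have hdeg : (X ^ 2 - C (algebraMap k (AlgebraicClosure k) x) * X +
        C (algebraMap k (AlgebraicClosure k) β)).degree ≠ 0 := by
      have : (X ^ 2 - C (algebraMap k (AlgebraicClosure k) x) * X +
        C (algebraMap k (AlgebraicClosure k) β)).degree = 2 := by
        compute_degree!
      rw [this]
      decide
    obtain ⟨u, hu⟩ := IsAlgClosed.exists_root _ hdeg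
    refine ⟨u, ?_⟩
    simpa [IsRoot] using hu
  obtain ⟨w, hw⟩ : ∃ w, w = algebraMap k (AlgebraicClosure k) x - u := ⟨_, rfl⟩
  have hsum : u + w = algebraMap k _ x := by rw [hw]; ring
  have hprod : u * w = algebraMap k _ β := by rw [hw]; linear_combination - hu
  let φ := FiniteField.frobeniusAlgHom k (AlgebraicClosure k)
  have hφ : ∀ z : AlgebraicClosure k, φ z = z ^ Fintype.card k := fun z => rfl
  have hφx : φ u + φ w = u + w := by
    rw [← map_add, hsum]
    exact φ.commutes x
  have hφb : φ u * φ w = u * w := by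
    rw [← map_mul, hprod]
    exact φ.commutes β
  have h0 : (φ u - u) * (φ u - w) = 0 := by
    linear_combination φ u * hφx - hφb
  have hcase : (φ u = u ∧ φ w = w) ∨ (φ u = w ∧ φ w = u) := by
    rcases mul_eq_zero.1 h0 with h | h
    · left
      refine ⟨sub_eq_zero.1 h, ?_⟩
      linear_combination hφx - h
    · right
      refine ⟨sub_eq_zero.1 h, ?_⟩
      linear_combination hφx - h
  have h2 : ∀ z : AlgebraicClosure k, z ^ (Fintype.card k ^ 2) = φ (φ z) := by
    intro z
    rw [hφ, hφ, ← pow_mul, sq]
  refine ⟨u, w, hsum, hprod, ?_, ?_⟩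
  · rw [h2]
    rcases hcase with ⟨h, h'⟩ | ⟨h, h'⟩
    · rw [h, h]
    · rw [h, h']
  · rw [h2]
    rcases hcase with ⟨h, h'⟩ | ⟨h, h'⟩
    · rw [h', h']
    · rw [h', h]

/-- the power map is injective -/
theorem pow_inj' {F : Type*} [Field F] {q l : ℕ} (hq : 1 < q) (hl : 1 ≤ l) (hc : Nat.Coprime l (q ^ 2 - 1))
    {a b : F} (ha : a ^ (q ^ 2) = a) (hb : b ^ (q ^ 2) = b) (h : a ^ l = b ^ l) : a = b := by
  have hl0 : l ≠ 0 := by omega
  by_cases hb0 : b = 0
  · rw [hb0, zero_pow hl0] at h
    rw [hb0]
    exact pow_eq_zero_iff hl0 |>.1 h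
  · have ha0 : a ≠ 0 := by
      rintro rfl
      rw [zero_pow hl0] at h
      exact hb0 (pow_eq_zero_iff hl0 |>.1 h.symm)
    have hq2 : q ^ 2 = q ^ 2 - 1 + 1 := by
      have : 1 ≤ q ^ 2 := Nat.one_le_pow _ _ (by omega)
      omega
    have h1 : ∀ z : F, z ≠ 0 → z ^ (q ^ 2) = z → z ^ (q ^ 2 - 1) = 1 := by
      intro z hz hz'
      rw [hq2, pow_succ] at hz'
      exact mul_right_cancel₀ hz (by rw [hz', one_mul])
    have h2 : (a / b) ^ (q ^ 2 - 1) = 1 := by
      rw [div_pow, h1 a ha0 ha, h1 b hb0 hb, div_one]
    have h3 : (a / b) ^ l = 1 := by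
      rw [div_pow, h, div_self (pow_ne_zero _ hb0)]
    have h4 : orderOf (a / b) ∣ Nat.gcd l (q ^ 2 - 1) :=
      Nat.dvd_gcd (orderOf_dvd_of_pow_eq_one h3) (orderOf_dvd_of_pow_eq_one h2)
    rw [hc] at h4
    have h5 : orderOf (a / b) = 1 := Nat.dvd_one.1 h4
    rw [orderOf_eq_one_iff, div_eq_one_iff_eq hb0] at h5
    exact h5

theorem t_dick : Pool.Agent.N236.UB.S_DICK := by
  intro k _ _ l hl hlk hc β
  have hq : 1 < Fintype.card k := Fintype.one_lt_card
  let ι := algebraMap k (AlgebraicClosure k)
  have hι : Function.Injective ι := ι.injective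
  have hev : ∀ (P : k[X]) (x : k), (P.map ι).eval (ι x) = ι (P.eval x) := by
    intro P x
    rw [eval_map, eval₂_at_apply]
  constructor
  · intro x y hxy
    obtain ⟨u, w, h1, h2, h3, h4⟩ := roots x β
    obtain ⟨u', w', h1', h2', h3', h4'⟩ := roots y β
    have e1 : u ^ l + w ^ l = ι ((dickson 1 β l).eval x) := by
      rw [← hev, map_dickson, ← eval_dick, h1, h2]
    have e2 : u' ^ l + w' ^ l = ι ((dickson 1 β l).eval y) := by
      rw [← hev, map_dickson, ← eval_dick, h1', h2']
    have e3 : u ^ l + w ^ l = u' ^ l + w' ^ l := by rw [e1, e2, hxy]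
    have e4 : u ^ l * w ^ l = u' ^ l * w' ^ l := by rw [← mul_pow, ← mul_pow, h2, h2']
    have e5 : (u ^ l - u' ^ l) * (u ^ l - w' ^ l) = 0 := by
      linear_combination u ^ l * e3 - e4
    apply hι
    rcases mul_eq_zero.1 e5 with h | h
    · have g1 : u = u' := pow_inj' hq hl hc h3 h3' (sub_eq_zero.1 h)
      have g2 : w = w' := pow_inj' hq hl hc h4 h4' (by linear_combination e3 - h)
      show algebraMap k _ x = algebraMap k _ y
      rw [← h1, ← h1', g1, g2]
    · have g1 : u = w' := pow_inj' hq hl hc h3 h4' (sub_eq_zero.1 h)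
      have g2 : w = u' := pow_inj' hq hl hc h4 h3' (by linear_combination e3 - h)
      show algebraMap k _ x = algebraMap k _ y
      rw [← h1, ← h1', g1, g2, add_comm]
  · intro x hx hcon
    obtain ⟨u, w, h1, h2, h3, h4⟩ := roots x β
    have e0 : (derivative (dickson 1 (u * w) l)).eval (u + w) = 0 := by
      rw [h1, h2]
      have := hev (derivative (dickson 1 β l)) x
      rw [← derivative_map, map_dickson, hcon, map_zero] at this
      exact this
    have hl' : (l : AlgebraicClosure k) ≠ 0 := by
      intro h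
      apply hlk
      apply hι
      rw [map_natCast, map_zero]
      exact h
    have e1 := eval_der u w l
    rw [e0, mul_zero] at e1
    have e2 : u ^ l = w ^ l := by
      rcases mul_eq_zero.1 e1.symm with h | h
      · exact absurd h hl'
      · exact sub_eq_zero.1 h
    have e3 : u = w := pow_inj' hq hl hc h3 h4 e2
    subst e3
    have e4 := eval_der_two u l
    rw [e0] at e4
    rcases mul_eq_zero.1 e4.symm with h | h
    · exact hl' (pow_eq_zero_iff (by norm_num) |>.1 h)
    · have hu : u = 0 := by
        by_contra hne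
        exact pow_ne_zero _ hne h
      rcases hx with hx | hx
      · apply hx
        apply hι
        show algebraMap k _ x = algebraMap k _ 0
        rw [← h1, hu, map_zero, add_zero]
      · apply hx
        apply hι
        show algebraMap k _ β = algebraMap k _ 0
        rw [← h2, hu, map_zero, mul_zero]

end Pool.Agent.N578.UB
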